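import Mathlib

set_option autoImplicit false

namespace Pool.Agent.H.MP_291982_ag

open MvPolynomial

section

variable (R : Type) [CommRing R] (m : ℕ)

noncomputable def AA (i : Fin 4) : MvPolynomial (Fin 4) R :=
  X i ^ (m + 2) - X i * X 0 ^ (m + 1)

noncomputable def FF : MvPolynomial (Fin 4) R :=
  X 0 * (AA R m 1 * AA R m 3 - AA R m 2 ^ 2) +
    AA R m 1 * (X 1 * X 2 ^ (m + 2) - X 1 ^ (m + 2) * X 2)

theorem FF_hom : (FF R m).IsHomogeneous (2 * m + 5) := by
  have x (i : Fin 4) := isHomogeneous_X R i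
  have a (i : Fin 4) : (AA R m i).IsHomogeneous (m + 2) :=
    IsHomogeneous.sub (by simpa using (x i).pow (m + 2))
      (by convert (x i).mul ((x 0).pow (m + 1)) using 1; ring)
  refine IsHomogeneous.add ?_ ?_
  · convert (x 0).mul (((a 1).mul (a 3)).sub (by convert (a 2).pow 2 using 1; ring)) using 1
    ring
  · convert (a 1).mul (((x 1).mul ((x 2).pow (m + 2))).sub
      (by convert ((x 1).pow (m + 2)).mul (x 2) using 1; ring)) using 1
    ring

theorem FF_map {S : Type} [CommRing S] (f : R →+* S) : map f (FF R m) = FF S m := by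
  simp [FF, AA]

theorem p2 (i : Fin 4) : pderiv i (2 : MvPolynomial (Fin 4) R) = 0 := by
  simpa using (pderiv (R := R) i).map_natCast 2

variable {R m} (h : ((m + 2 : ℕ) : R) = 0)
include h

theorem hq : (m : MvPolynomial (Fin 4) R) = -2 := by
  have := congrArg (C : R →+* MvPolynomial (Fin 4) R) h
  rw [map_natCast, map_zero] at this
  push_cast at this
  linear_combination this

theorem d3 : pderiv 3 (FF R m) = -(X 0 ^ (m + 2) * AA R m 1) := by
  simp [FF, AA, hq h, Derivation.leibniz_pow]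
  ring

theorem d2 : pderiv 2 (FF R m) = 2 * X 0 ^ (m + 2) * AA R m 2 - AA R m 1 * X 1 ^ (m + 2) := by
  simp [FF, AA, hq h, Derivation.leibniz_pow]
  ring

theorem d22 : pderiv 2 (pderiv 2 (FF R m)) = -(2 * X 0 ^ (2 * m + 3)) := by
  rw [d2 h]
  simp [AA, hq h, Derivation.leibniz_pow, p2]
  ring

theorem d32 : pderiv 3 (pderiv 2 (FF R m)) = 0 := by
  rw [d2 h]
  simp [AA, hq h, Derivation.leibniz_pow, p2]

theorem d23 : pderiv 2 (pderiv 3 (FF R m)) = 0 := by
  rw [d3 h]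
  simp [AA, hq h, Derivation.leibniz_pow]

theorem d33 : pderiv 3 (pderiv 3 (FF R m)) = 0 := by
  rw [d3 h]
  simp [AA, hq h, Derivation.leibniz_pow]

theorem frob : ∑ i, X i ^ (m + 2) * pderiv i (FF R m) = FF R m * -X 0 ^ (m + 1) := by
  simp [Fin.sum_univ_four, FF, AA, hq h, Derivation.leibniz_pow]
  ring

end

variable {k : Type} [Field k] {m : ℕ} (h : ((m + 2 : ℕ) : k) = 0) (h2 : (2 : k) ≠ 0)
include h h2

theorem not_dvd {π : MvPolynomial (Fin 4) k} (hπ : Prime π) (h1 : π ∣ FF k m) :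
    ¬ π ∣ pderiv 3 (FF k m) := by
  intro h3
  have a0 : X 0 ^ (m + 2) * AA k m 1 ≠ 0 := by
    intro e
    have := congrArg (eval ![1, 0, 0, 0] ∘ pderiv 1) e
    simp [AA, hq h, Derivation.leibniz_pow] at this
  have a1 : pderiv 2 π = 0 := by
    rw [d3 h, dvd_neg] at h3
    obtain ⟨c, hc⟩ := h3
    have b : degreeOf 2 (X 0 ^ (m + 2) * AA k m 1) = 0 := by
      by_contra hne
      have := mem_vars_iff_degreeOf_ne_zero.2 hne
      have e : X 0 ^ (m + 2) * AA k m 1 = rename (Fin.castLE (by norm_num) : Fin 2 → Fin 4)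
          (X 0 ^ (m + 2) * (X 1 ^ (m + 2) - X 1 * X 0 ^ (m + 1))) := by
        simp [AA]
      rw [e] at this
      obtain ⟨i, -, hi⟩ := mem_vars_rename _ _ this
      revert i
      decide
    rw [hc] at a0 b
    rw [degreeOf_mul_eq (left_ne_zero_of_mul a0) (right_ne_zero_of_mul a0)] at b
    apply pderiv_eq_zero_of_notMem_vars
    rw [mem_vars_iff_degreeOf_ne_zero]
    omega
  have a2 : ∀ f, π ∣ f → π ∣ pderiv 2 f := by
    rintro _ ⟨c, rfl⟩
    simp [a1]
  have u : IsUnit (2 : MvPolynomial (Fin 4) k) := by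
    rw [← map_ofNat (C : k →+* MvPolynomial (Fin 4) k) 2]
    exact (IsUnit.mk0 _ h2).map _
  have a3 := a2 _ h1
  have a4 := a2 _ a3
  rw [d22 h, dvd_neg, u.dvd_mul_left] at a4
  have a5 := hπ.dvd_of_dvd_pow a4
  have a6 : π ∣ X 1 ^ (2 * m + 4) := by
    have e : (X 1 : MvPolynomial (Fin 4) k) ^ (2 * m + 4) = X 0 * (2 * X 0 ^ (m + 1) * AA k m 2 +
        X 1 ^ (m + 3) * X 0 ^ m) - pderiv 2 (FF k m) := by
      rw [d2 h]
      simp only [AA]
      ring
    rw [e]
    exact dvd_sub (a5.mul_right _) a3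
  have a7 := (hπ.associated_of_dvd X_prime a5).symm.dvd.trans (hπ.dvd_of_dvd_pow a6)
  rw [X_dvd_X] at a7
  exact absurd a7 (by decide)

omit h2 in
theorem FF_ne : FF k m ≠ 0 := by
  intro e
  have := congrArg (eval ![1, 0, 0, 0] ∘ pderiv 1 ∘ pderiv 3) e
  simp [d3 h, AA, hq h, Derivation.leibniz_pow] at this

theorem sqfree : Squarefree (FF k m) := by
  rw [squarefree_iff_irreducible_sq_not_dvd_of_ne_zero (FF_ne h)]
  rintro π hπ ⟨c, hc⟩
  refine not_dvd h h2 hπ.prime ⟨π * c, by rw [hc, mul_assoc]⟩ ?_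
  rw [hc]
  exact ⟨_, by simp only [Derivation.leibniz, smul_eq_mul]; rw [mul_assoc, ← mul_add,
    mul_left_comm c, ← mul_add]⟩

theorem noP (p : ℕ) (hp : (p : k) = 0) {π : MvPolynomial (Fin 4) k} (hπ : Prime π)
    (h1 : π ∣ FF k m) (G : Fin 4 → MvPolynomial (Fin 4) k)
    (hG : ∀ i j, π ∣ pderiv i (FF k m) * G j ^ p - pderiv j (FF k m) * G i ^ p) (i : Fin 4) :
    π ∣ G i := by
  have n3 := not_dvd h h2 hπ h1
  let δ : Derivation k (MvPolynomial (Fin 4) k) (MvPolynomial (Fin 4) k) :=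
    pderiv 3 (FF k m) • pderiv 2 - pderiv 2 (FF k m) • pderiv 3
  have hδ : ∀ f, δ f = pderiv 3 (FF k m) * pderiv 2 f - pderiv 2 (FF k m) * pderiv 3 f :=
    fun f => rfl
  have a0 : π ∣ δ π := by
    obtain ⟨c, hc⟩ := h1
    have b : δ (π * c) = 0 := by rw [← hc, hδ]; ring
    rw [Derivation.leibniz, smul_eq_mul, smul_eq_mul] at b
    have b2 : π ∣ c * δ π := ⟨-δ c, by linear_combination b⟩
    refine (hπ.dvd_or_dvd b2).resolve_left ?_
    rintro ⟨d, rfl⟩
    exact hπ.not_unit (sqfree h h2 π ⟨d, by rw [hc, mul_assoc]⟩)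
  have a1 : ∀ f, π ∣ f → π ∣ δ f := by
    rintro _ ⟨c, rfl⟩
    rw [Derivation.leibniz, smul_eq_mul, smul_eq_mul]
    exact dvd_add (dvd_mul_right _ _) (a0.mul_left _)
  have a2 : ∀ g, δ (g ^ p) = 0 := fun g => by
    rw [Derivation.leibniz_pow, ← Nat.cast_smul_eq_nsmul k, hp, zero_smul]
  have a3 := a1 _ (hG 2 3)
  simp only [map_sub, Derivation.leibniz, a2, smul_eq_mul] at a3
  simp only [hδ, d22 h, d32 h, d23 h, d33 h, mul_zero, sub_zero, zero_add] at a3
  have u : IsUnit (2 : MvPolynomial (Fin 4) k) := by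
    rw [← map_ofNat (C : k →+* MvPolynomial (Fin 4) k) 2]
    exact (IsUnit.mk0 _ h2).map _
  have a4 : π ∣ G 3 ^ p := by
    refine (hπ.dvd_or_dvd a3).resolve_right fun b => ?_
    have := (hπ.dvd_or_dvd b).resolve_left n3
    rw [dvd_neg, u.dvd_mul_left] at this
    apply n3
    rw [d3 h, dvd_neg]
    exact ((hπ.dvd_of_dvd_pow this).trans (dvd_pow_self _ (by omega))).mul_right _
  have a5 := (dvd_sub_right (a4.mul_left _)).1 (hG i 3)
  exact hπ.dvd_of_dvd_pow ((hπ.dvd_or_dvd a5).resolve_left n3)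

theorem cubic (p : ℕ) (hp : (p : k) = 0) (φ : MvPolynomial (Fin 4) k →ₐ[k] RatFunc k)
    (hφ : φ = aeval fun i : Fin 4 => (RatFunc.X : RatFunc k) ^ (i : ℕ)) :
    φ (FF k m) = 0 ∧ φ (pderiv 3 (FF k m)) ≠ 0 ∧
      ¬ ∃ g, φ (pderiv 2 (FF k m)) / φ (pderiv 3 (FF k m)) = g ^ p := by
  have hm : (m : Polynomial k) = -2 := by
    have := congrArg (Polynomial.C : k →+* Polynomial k) h
    rw [map_natCast, map_zero] at this
    push_cast at this
    linear_combination this
  have a : (RatFunc.X : RatFunc k) ^ (m + 2) - RatFunc.X ≠ 0 := by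
    have : (Polynomial.X : Polynomial k) ^ (m + 2) - Polynomial.X ≠ 0 := fun e => by
      have := congrArg Polynomial.derivative e
      simp [hm] at this
      norm_num at this
    simpa using RatFunc.algebraMap_ne_zero this
  have b3 : φ (pderiv 3 (FF k m)) = -(RatFunc.X ^ (m + 2) - RatFunc.X) := by
    simp [d3 h, hφ, AA]
  have b2 : φ (pderiv 2 (FF k m)) =
      (RatFunc.X ^ (m + 2) - RatFunc.X) * (RatFunc.X ^ (m + 2) + 2 * RatFunc.X) := by
    simp [d2 h, hφ, AA]
    ring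
  refine ⟨?_, by rw [b3]; exact neg_ne_zero.2 a, ?_⟩
  · simp [hφ, FF, AA]
    ring
  · rintro ⟨g, hg⟩
    rw [b2, b3, div_neg, mul_div_cancel_left₀ _ a, ← g.num_div_denom, div_pow,
      eq_div_iff (pow_ne_zero _ (RatFunc.algebraMap_ne_zero g.denom_ne_zero))] at hg
    have c : -(Polynomial.X ^ (m + 2) + 2 * Polynomial.X) * g.denom ^ p = g.num ^ p := by
      apply RatFunc.algebraMap_injective k
      simpa [map_ofNat] using hg
    have d := congrArg Polynomial.derivative c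
    have u : (2 : Polynomial k) ≠ 0 := by
      rw [← map_ofNat (Polynomial.C : k →+* Polynomial k) 2]
      exact Polynomial.C_ne_zero.2 h2
    simp [Polynomial.derivative_pow, hp, hm, g.denom_ne_zero, u, map_ofNat] at d

end Pool.Agent.H.MP_291982_ag
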